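import Pool.Agent.W602.RG.Stm

/-!
# Integral weights from a relation in a rational vector space
-/

set_option autoImplicit false

namespace Pool.Agent.W150.RG.QLF

open Pool.Agent.W602.RG

theorem main : S_QLF := by
  intro V _ _ m a Q hQ i j hij
  obtain ⟨φ, hφ⟩ : ∃ φ : Module.Dual ℚ V, φ (a i - a j) ≠ 0 := by
    by_contra hc
    push Not at hc
    exact hij (sub_eq_zero.mp ((Module.forall_dual_apply_eq_zero_iff ℚ _).mp hc))
  have hN : ((∏ l, (φ (a l)).den : ℕ) : ℚ) ≠ 0 := by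
    exact_mod_cast (Finset.prod_ne_zero_iff.mpr fun l _ => (φ (a l)).den_nz)
  have hb : ∀ l, ∃ z : ℤ, (z : ℚ) = ((∏ l, (φ (a l)).den : ℕ) : ℚ) * φ (a l) := by
    intro l
    obtain ⟨c, hc⟩ := Finset.dvd_prod_of_mem (fun l => (φ (a l)).den) (Finset.mem_univ l)
    refine ⟨(φ (a l)).num * c, ?_⟩
    rw [hc]
    push_cast
    have h1 : (φ (a l)).den * φ (a l) = (φ (a l)).num := by
      rw [mul_comm]; exact Rat.mul_den_eq_num _
    calc ((φ (a l)).num : ℚ) * c = ((φ (a l)).den * φ (a l)) * c := by rw [h1]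
      _ = _ := by ring
  choose b hb using hb
  refine ⟨b, fun h => hφ ?_, fun q hq => ?_⟩
  · have h1 : (b i : ℚ) = b j := by rw [h]
    rw [hb, hb] at h1
    have h2 := mul_left_cancel₀ hN h1
    rw [map_sub, h2, sub_self]
  · have h1 := congrArg φ (hQ q hq)
    rw [map_sum, map_zero] at h1
    have h2 : ((∑ l, q l * b l : ℤ) : ℚ) = 0 := by
      push_cast
      have h3 : ∀ l, (q l : ℚ) * (b l : ℚ) = ((∏ l, (φ (a l)).den : ℕ) : ℚ) * φ (q l • a l) := by
        intro l
        rw [hb, map_zsmul, zsmul_eq_mul]; ring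
      rw [Finset.sum_congr rfl fun l _ => h3 l, ← Finset.mul_sum, h1, mul_zero]
    exact_mod_cast h2

end Pool.Agent.W150.RG.QLF
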